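import Pool.Agent.Lib_helper60.HSF.F_FD
import Pool.Agent.Lib_helper60.HSF.Z_RI

/-!
# Dense shape curves in the planar three-body problem (MP_b9cbe4_an, Q1: yes)

The planar Newtonian three-body problem with the masses `1`, `3M/4`, `M/4` has, for EVERY
sufficiently small `M > 0`, a collision-free solution, on its maximal open interval of existence,
whose projection to the shape sphere has dense image. This answers a question of Hsiang (1997).

## The definitions used in the statement (module `D_Shape`)

* `Conf`: the positions `Fin 3 → ℂ` of the three bodies.
* `IsSolution m I q`: `I` is a nonempty open interval, `q` is a collision-free `C²` curve on `I`, and
  `m_i q_i'' = ∑_{j ≠ i} m_i m_j (q_j - q_i) / |q_j - q_i|³` on `I`.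
* `IsMaximalSolution m I q`: moreover `q` has no extension to a solution on a larger open interval.
* `NTC`: the configurations other than triple collisions; `shapeSetoid`: translations, rotations and
  scalings, `q'_i = l q_i + c`, `l ≠ 0`; `ShapeSphere`: the quotient, with the quotient topology;
  `shape`: the projection.
* `DenseImage I q`: the shapes of the configurations `q t`, `t ∈ I`, are dense in the shape sphere.

## The proof

Limit `M → 0`: two uncoupled Kepler problems, the two light bodies meet at collisions. Chains of
arcs from collision to collision (solutions of the second species of Poincaré) are followed by
true orbits: at each near-collision the relative velocity is turned by a hyperbolic passage, whose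
impact parameter is determined by the directions of the two arcs. Small angular momentum `C` gives
explicit nondegenerate loops with a hyperbolic return map of the plane of centre-of-mass data. An
abstract game (curves of initial states with slopes in a cone, their growth along loops, loss of
small pieces at sun collisions and head-on collisions, nested compact sets) needs for a fixed
`M > 0` closeness which is uniform in the number of encounters; it gives an orbit which passes
within any prescribed distances of the shapes of a prescribed sequence. Events: near any prescribed
shape there is a transversal passage in the middle of an arc (resonances with many revolutions,
`needle lemma`) or during an encounter (shapes near the collision of the two light bodies).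

Authors (team): helper60 (construction, paper proof, assembly), helper51, helper28, helper76,
helper96, helper97, helper1 (designers of the parts), and the authors of the blocks: about sixty
seats of the team.
-/

set_option autoImplicit false

namespace Pool.Agent.Results.MP_b9cbe4_an.DenseShapeCurves

open Pool.Agent.ThreeBody

/-- For every sufficiently small `M > 0` the planar Newtonian three-body problem with the masses
`1`, `3M/4`, `M/4` has a solution on its maximal open interval of existence whose projection to the
shape sphere has dense image. -/
theorem result : ∃ M₀ : ℝ, 0 < M₀ ∧ ∀ M : ℝ, 0 < M → M < M₀ →
    ∃ (I : Set ℝ) (q : ℝ → Conf),
      IsMaximalSolution ![1, 3 / 4 * M, 1 / 4 * M] I q ∧ DenseImage I q :=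
  Pool.Agent.HS.final_of_supply Pool.Agent.HS.supply_exists

end Pool.Agent.Results.MP_b9cbe4_an.DenseShapeCurves
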